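import Pool.Agent.Work.MP_88b7aa_gt.Kc.Mdk
import Pool.Agent.Work.MP_88b7aa_gt.Kc.Tpl
import Pool.Agent.Work.MP_88b7aa_gt.A.TA4_33

/-! The check functions of the class. -/

set_option autoImplicit false

namespace Pool.Agent.Work.MP_88b7aa_gt.D.C447

open Pool.Agent.Work.MP_88b7aa_gt.PQ
open Pool.Agent.Work.MP_88b7aa_gt.Kc

noncomputable def H : Chs Dt := mkH 1 [fS 1 T000, fS 1 TA4_33]

theorem H_ok : H.OK (KS (.ex 4) (.ex 4) (.ex 7)) := mkH_ok (by decide) (by decide) (LF.cons (fS_ok (T000_ok _) (by decide)) (LF.cons (fS_ok (TA4_33_ok (fun _ _ _ h => h.1)) (by decide)) LF.nil))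

end Pool.Agent.Work.MP_88b7aa_gt.D.C447
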